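import Pool.Agent.Y283.GL.Core

/-! # The space is separable -/

open Set Topology Filter Metric
open scoped BoundedContinuousFunction

namespace Pool.Agent.Y283.GL

/-- the origin as a point -/
def z0 : Pt := ⟨0, mem_closedBall_self (by norm_num)⟩

theorem cont_getD (i : ℕ) : Continuous fun s : List Pt => s.getD i z0 := by
  induction i with
  | zero =>
    rw [continuous_iff_continuousAt]
    intro s
    cases s with
    | nil =>
      unfold ContinuousAt
      rw [nhds_nil]
      exact tendsto_pure_nhds _ _
    | cons a l =>
      unfold ContinuousAt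
      rw [List.tendsto_cons_iff]
      exact tendsto_fst
  | succ i ih =>
    rw [continuous_iff_continuousAt]
    intro s
    cases s with
    | nil =>
      unfold ContinuousAt
      rw [nhds_nil]
      exact tendsto_pure_nhds _ _
    | cons a l =>
      unfold ContinuousAt
      rw [List.tendsto_cons_iff]
      have h : Tendsto (fun p : Pt × List Pt => p.2.getD i z0) (𝓝 a ×ˢ 𝓝 l) (𝓝 (l.getD i z0)) :=
        (ih.tendsto l).comp tendsto_snd
      simpa using h

/-- the entries of a list -/
def pj (m : ℕ) (s : List Pt) : Fin m → Pt := fun i => s.getD i z0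

theorem cont_pj (m : ℕ) : Continuous (pj m) := continuous_pi fun i => cont_getD i

theorem ofFn_pj {m : ℕ} {s : List Pt} (h : s.length = m) : List.ofFn (pj m s) = s := by
  subst h
  apply List.ext_getElem
  · simp
  · intro i h1 h2
    simp [pj]
    rw [List.getElem?_eq_getElem h2, Option.getD_some]

theorem cont_ofFn (m : ℕ) : Continuous fun v : Fin m → Pt => List.ofFn v := by
  induction m with
  | zero =>
    have : (fun v : Fin 0 → Pt => List.ofFn v) = fun _ => [] := by
      funext v; simp
    rw [this]
    exact continuous_const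
  | succ m ih =>
    have : (fun v : Fin (m + 1) → Pt => List.ofFn v)
        = fun v => v 0 :: List.ofFn (fun i : Fin m => v i.succ) := by
      funext v
      rw [List.ofFn_succ]
    rw [this]
    have h : Continuous fun v : Fin (m + 1) → Pt => (v 0, List.ofFn (fun i : Fin m => v i.succ)) :=
      (continuous_apply 0).prodMk (ih.comp (continuous_pi fun i => continuous_apply i.succ))
    exact List.continuous_cons.comp h

theorem cont_lev (m : ℕ) (h : C(Fin m → Pt, ℂ)) :
    Continuous fun s : Idx => if s.length = m then h (pj m s) else 0 := by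
  rw [continuous_iff_continuousAt]
  intro s
  by_cases hs : s.length = m
  · have h1 : (fun s : Idx => if s.length = m then h (pj m s) else 0)
        =ᶠ[𝓝 s] fun t => h (pj m t) := by
      filter_upwards [eventually_length s] with t ht
      rw [ht, if_pos hs]
    exact ((h.continuous.comp (cont_pj m)).continuousAt).congr h1.symm
  · have h1 : (fun s : Idx => if s.length = m then h (pj m s) else 0) =ᶠ[𝓝 s] fun t => 0 := by
      filter_upwards [eventually_length s] with t ht
      rw [ht, if_neg hs]
    exact continuousAt_const.congr h1.symm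

theorem lev_bound (m : ℕ) (h : C(Fin m → Pt, ℂ)) (k : ℕ) (s : Idx) :
    W k s.length * ‖(if s.length = m then h (pj m s) else 0)‖ ≤ W k m * ‖h‖ := by
  split_ifs with hs
  · rw [hs]
    exact mul_le_mul_of_nonneg_left (h.norm_coe_le_norm _) (W_pos k m).le
  · rw [norm_zero, mul_zero]
    exact mul_nonneg (W_pos k m).le (norm_nonneg _)

/-- the elements living on lists of length `m` -/
noncomputable def J (m : ℕ) (h : C(Fin m → Pt, ℂ)) : G :=
  mkG (fun s => if s.length = m then h (pj m s) else 0) (cont_lev m h)
    (fun k => ⟨_, lev_bound m h k⟩)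

theorem co_J (m : ℕ) (h : C(Fin m → Pt, ℂ)) (s : Idx) :
    co (J m h) s = if s.length = m then h (pj m s) else 0 := co_mkG _ _ _ s

theorem cont_J (m : ℕ) : Continuous (J m) := by
  rw [Topology.IsInducing.subtypeVal.continuous_iff, continuous_pi_iff]
  intro k
  have hl : LipschitzWith (Real.toNNReal (W k m)) fun h : C(Fin m → Pt, ℂ) => kL k (J m h) := by
    apply LipschitzWith.of_dist_le'
    intro h h'
    rw [BoundedContinuousFunction.dist_le (mul_nonneg (W_pos k m).le dist_nonneg)]
    intro s
    rw [dist_eq_norm, dist_eq_norm, kL_apply, kL_apply, co_J, co_J, ← mul_sub, norm_mul,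
      Complex.norm_real, Real.norm_eq_abs, abs_of_pos (W_pos _ _)]
    have := lev_bound m (h - h') k s
    refine le_trans (le_of_eq ?_) this
    congr 2
    split_ifs with hs
    · rfl
    · rw [sub_zero]
  exact hl.continuous

/-- the restriction to lists of length `m` -/
noncomputable def lv (m : ℕ) (x : G) : C(Fin m → Pt, ℂ) :=
  ⟨fun v => co x (List.ofFn v), (cont_co x).comp (cont_ofFn m)⟩

theorem W_growth (k n : ℕ) : 2 ^ n * W k n ≤ W (k + 1) n := by
  have hn : ∀ a : ℕ, a < 16 ^ a := fun a => Nat.lt_pow_self (by norm_num)
  cases k with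
  | zero =>
    show (2 : ℝ) ^ n * 1 ≤ 2 ^ (16 ^ (n + 0))
    rw [mul_one, add_zero]
    exact pow_le_pow_right₀ one_le_two (hn n).le
  | succ k =>
    show (2 : ℝ) ^ n * 2 ^ (16 ^ (n + k)) ≤ 2 ^ (16 ^ (n + (k + 1)))
    rw [← pow_add]
    apply pow_le_pow_right₀ one_le_two
    have h1 := hn (n + k)
    have h2 : 16 ^ (n + (k + 1)) = 16 * 16 ^ (n + k) := by
      rw [← add_assoc, pow_succ]; ring
    rw [h2]
    omega

/-- truncations -/
noncomputable def tr (n : ℕ) (x : G) : G := ∑ m ∈ Finset.range n, J m (lv m x)

theorem co_add' (x y : G) (s : Idx) : co (x + y) s = co x s + co y s := rfl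
theorem co_sub' (x y : G) (s : Idx) : co (x - y) s = co x s - co y s := rfl

theorem co_tr (n : ℕ) (x : G) (s : Idx) : co (tr n x) s = if s.length < n then co x s else 0 := by
  induction n with
  | zero => simp [tr]; rfl
  | succ n ih =>
    have h : tr (n + 1) x = tr n x + J n (lv n x) := by
      unfold tr
      rw [Finset.sum_range_succ]
    rw [h, co_add', ih, co_J]
    have e : s.length = n → (lv n x) (pj n s) = co x s := by
      intro hs
      show co x (List.ofFn (pj n s)) = co x s
      rw [ofFn_pj hs]
    rcases lt_trichotomy s.length n with h1 | h1 | h1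
    · rw [if_pos h1, if_neg h1.ne, if_pos (by omega), add_zero]
    · rw [if_neg (by omega), if_pos h1, if_pos (by omega), e h1, zero_add]
    · rw [if_neg (by omega), if_neg (by omega), if_neg (by omega), add_zero]

theorem tendsto_tr (x : G) : Tendsto (fun n => tr n x) atTop (𝓝 x) := by
  rw [Topology.IsInducing.subtypeVal.tendsto_nhds_iff, tendsto_pi_nhds]
  intro k
  show Tendsto (fun n => kL k (tr n x)) atTop (𝓝 (kL k x))
  rw [tendsto_iff_norm_sub_tendsto_zero]
  have hb : ∀ n, ‖kL k (tr n x) - kL k x‖ ≤ ‖kL (k + 1) x‖ * (1 / 2) ^ n := by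
    intro n
    rw [← map_sub]
    apply norm_kL_le _ _ (by positivity)
    intro s
    rw [co_sub', co_tr]
    split_ifs with hs
    · rw [sub_self, norm_zero, mul_zero]
      positivity
    · rw [zero_sub, norm_neg]
      have h1 := W_growth k s.length
      have h2 := bd x (k + 1) s
      have h3 : (1 / 2 : ℝ) ^ s.length ≤ (1 / 2) ^ n :=
        pow_le_pow_of_le_one (by norm_num) (by norm_num) (by omega)
      have h4 : W k s.length ≤ (1 / 2) ^ s.length * W (k + 1) s.length := by
        have h5 : (1 / 2 : ℝ) ^ s.length * 2 ^ s.length = 1 := by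
          rw [← mul_pow]; norm_num
        calc W k s.length = (1 / 2 : ℝ) ^ s.length * (2 ^ s.length * W k s.length) := by
              rw [← mul_assoc, h5, one_mul]
          _ ≤ _ := by gcongr
      calc W k s.length * ‖co x s‖ ≤ ((1 / 2) ^ s.length * W (k + 1) s.length) * ‖co x s‖ := by
            gcongr
        _ = (1 / 2) ^ s.length * (W (k + 1) s.length * ‖co x s‖) := by ring
        _ ≤ (1 / 2) ^ n * ‖kL (k + 1) x‖ := by
            apply mul_le_mul h3 h2 _ (by positivity)
            have := (W_pos (k + 1) s.length).le
            positivity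
        _ = _ := by ring
  refine squeeze_zero (fun n => norm_nonneg _) hb ?_
  have := (tendsto_pow_atTop_nhds_zero_of_lt_one (r := (1 / 2 : ℝ)) (by norm_num)
    (by norm_num)).const_mul ‖kL (k + 1) x‖
  rwa [mul_zero] at this

instance separable_G : TopologicalSpace.SeparableSpace G := by
  rw [← TopologicalSpace.isSeparable_univ_iff]
  have h1 : TopologicalSpace.IsSeparable (⋃ m, range (J m)) :=
    TopologicalSpace.IsSeparable.iUnion fun m => TopologicalSpace.isSeparable_range (cont_J m)
  have h2 : TopologicalSpace.IsSeparable (Submodule.span ℂ (⋃ m, range (J m)) : Set G) := h1.span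
  refine h2.closure.mono ?_
  intro x _
  refine mem_closure_of_tendsto (tendsto_tr x) (Eventually.of_forall fun n => ?_)
  refine Submodule.sum_mem _ fun m _ => Submodule.subset_span ?_
  exact mem_iUnion.2 ⟨m, mem_range_self _⟩

theorem separable_GG : TopologicalSpace.SeparableSpace (G × G) := inferInstance

end Pool.Agent.Y283.GL
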