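import Mathlib

/-!
A separable version of the space and of the operator pencil of the starting file
`Pool.Agent.Results.MP_bc0aea_an.GlobalLifting` (most proofs are copied from there): bounded
families indexed by lists of points are replaced by bounded continuous families.
-/

open Set Topology Filter Metric Asymptotics
open scoped ENNReal BoundedContinuousFunction

set_option maxHeartbeats 400000
set_option linter.unusedSectionVars false
set_option linter.unusedVariables false

namespace Pool.Agent.Y283.GL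

/-- Complex Frechet spaces: the uniform structure is that of the additive group, the topology is
given by a family of seminorms, it is metrizable, Hausdorff and complete. -/
class IsFrechet (E : Type*) [AddCommGroup E] [Module ℂ E] [UniformSpace E] : Prop where
  uniformAddGroup : IsUniformAddGroup E
  polynormable : PolynormableSpace ℂ E
  metrizable : (uniformity E).IsCountablyGenerated
  separated : T2Space E
  complete : CompleteSpace E

/-! ### general facts on derivatives in topological vector spaces -/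

section tvs

variable {X : Type*} [NormedAddCommGroup X] [NormedSpace ℂ X]
variable {E F : Type*} [AddCommGroup E] [Module ℂ E] [TopologicalSpace E]
  [AddCommGroup F] [Module ℂ F] [TopologicalSpace F]

theorem fderiv_clm {f : X → E} {f' : X →L[ℂ] E} {x : X} (L : E →L[ℂ] F) (h : HasFDerivAt f f' x) :
    HasFDerivAt (fun z => L (f z)) (L.comp f') x := by
  rw [hasFDerivAt_iff_isLittleOTVS] at h ⊢
  have h1 : (fun x' => L (f x' - f x - f' (x' - x))) =O[ℂ; 𝓝 x] (fun x' => f x' - f x - f' (x' - x)) :=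
    L.isBigOTVS_fun_comp
  refine (h1.trans_isLittleOTVS h).congr_left ?_
  intro y
  simp

theorem diffAt_clm {f : X → E} {x : X} (L : E →L[ℂ] F) (h : DifferentiableAt ℂ f x) :
    DifferentiableAt ℂ (fun z => L (f z)) x := by
  obtain ⟨f', hf'⟩ := h
  exact ⟨_, fderiv_clm L hf'⟩

theorem diffAt_prod [ContinuousSMul ℂ E] [ContinuousSMul ℂ F] {f : X → E} {g : X → F} {x : X}
    (hf : DifferentiableAt ℂ f x) (hg : DifferentiableAt ℂ g x) :
    DifferentiableAt ℂ (fun z => (f z, g z)) x := by
  obtain ⟨f', hf'⟩ := hf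
  obtain ⟨g', hg'⟩ := hg
  refine ⟨f'.prod g', ?_⟩
  rw [hasFDerivAt_iff_isLittleOTVS] at hf' hg' ⊢
  exact (hf'.prodMk hg').congr_left (fun y => rfl)

end tvs

/-! ### the space -/

abbrev Pt : Type := closedBall (0 : ℂ) (1 / 4)

abbrev Idx : Type := List Pt

abbrev A : Type := Idx →ᵇ ℂ

theorem cont_length {Y : Type*} [TopologicalSpace Y] (f : ℕ → Y) :
    Continuous fun s : Idx => f s.length :=
  (continuous_of_discreteTopology (f := f)).comp
    (continuous_iff_continuousAt.2 List.continuousAt_length)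

theorem eventually_length (s : Idx) : ∀ᶠ t in 𝓝 s, t.length = s.length :=
  (cont_length (Y := ℕ) fun n => n).continuousAt.eventually_mem
    (isOpen_discrete {s.length} |>.mem_nhds rfl)

/-- the weights -/
noncomputable def W : ℕ → ℕ → ℝ
  | 0, _ => 1
  | k + 1, n => 2 ^ (16 ^ (n + k))

theorem W_zero (n : ℕ) : W 0 n = 1 := rfl

theorem one_le_W (k n : ℕ) : 1 ≤ W k n := by
  cases k with
  | zero => exact le_rfl
  | succ k => exact one_le_pow₀ one_le_two

theorem W_pos (k n : ℕ) : 0 < W k n := lt_of_lt_of_le one_pos (one_le_W k n)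

theorem W_succ (k n : ℕ) : W k (n + 1) ≤ W (k + 1) n := by
  cases k with
  | zero => exact one_le_W 1 n
  | succ k =>
    show (2 : ℝ) ^ (16 ^ (n + 1 + k)) ≤ 2 ^ (16 ^ (n + (k + 1)))
    have : n + 1 + k = n + (k + 1) := by omega
    rw [this]

/-- the space of families with all weighted suprema finite, as a closed subspace of a countable
product of Banach spaces -/
noncomputable def G : Submodule ℂ (ℕ → A) where
  carrier := {x | ∀ k s, x k s = W k s.length * x 0 s}
  add_mem' := by
    intro x y hx hy k s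
    show x k s + y k s = W k s.length * (x 0 s + y 0 s)
    rw [hx k s, hy k s]
    ring
  zero_mem' := by
    intro k s
    simp
  smul_mem' := by
    intro c x hx k s
    show c * x k s = W k s.length * (c * x 0 s)
    rw [hx k s]
    ring

/-- coordinates -/
noncomputable def co (x : G) (s : Idx) : ℂ := (x : ℕ → A) 0 s

theorem co_k (x : G) (k : ℕ) (s : Idx) : (x : ℕ → A) k s = W k s.length * co x s := x.2 k s

theorem G_ext {x y : G} (h : ∀ s, co x s = co y s) : x = y := by
  apply Subtype.ext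
  funext k
  ext s
  rw [co_k, co_k, h]

theorem isClosed_G : IsClosed (G : Set (ℕ → A)) := by
  have : (G : Set (ℕ → A)) = ⋂ k : ℕ, ⋂ s : Idx,
      {x : ℕ → A | (x k s : ℂ) = (W k s.length : ℂ) * (x 0 s : ℂ)} := by
    ext x
    simp only [mem_iInter]
    exact Iff.rfl
  rw [this]
  refine isClosed_iInter fun k => isClosed_iInter fun s => ?_
  have h1 : ∀ j : ℕ, Continuous fun x : ℕ → A => x j s := fun j =>
    (BoundedContinuousFunction.evalCLM ℂ s : A →L[ℂ] ℂ).continuous.comp (continuous_apply j)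
  exact isClosed_eq (h1 k) (continuous_const.mul (h1 0))

instance : CompleteSpace G := isClosed_G.completeSpace_coe

instance : IsUniformAddGroup G := inferInstanceAs (IsUniformAddGroup G.toAddSubgroup)

instance : (uniformity G).IsCountablyGenerated := by
  rw [uniformity_subtype]
  infer_instance

theorem frechet_G : IsFrechet G where
  uniformAddGroup := inferInstance
  polynormable := inferInstance
  metrizable := inferInstance
  separated := inferInstance
  complete := inferInstance

theorem frechet_GG : IsFrechet (G × G) where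
  uniformAddGroup := inferInstance
  polynormable := inferInstance
  metrizable := inferInstance
  separated := inferInstance
  complete := inferInstance

/-- the components -/
noncomputable def kL (k : ℕ) : G →L[ℂ] A := (ContinuousLinearMap.proj k).comp G.subtypeL

theorem kL_apply (k : ℕ) (x : G) (s : Idx) : kL k x s = W k s.length * co x s := co_k x k s

theorem kL_zero (x : G) (s : Idx) : kL 0 x s = co x s := rfl

theorem diffAt_G {X : Type*} [NormedAddCommGroup X] [NormedSpace ℂ X] {f : X → G} {x : X}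
    (h : ∀ k, DifferentiableAt ℂ (fun z => kL k (f z)) x) : DifferentiableAt ℂ f x := by
  choose D hD using h
  have hmem : ∀ v : X, (ContinuousLinearMap.pi D : X →L[ℂ] (ℕ → A)) v ∈ G := by
    intro v k s
    show (D k v : A) s = W k s.length * (D 0 v : A) s
    have h1 : HasFDerivAt (fun z => (kL k (f z) : A) s)
        ((BoundedContinuousFunction.evalCLM ℂ s : A →L[ℂ] ℂ).comp (D k)) x :=
      fderiv_clm (BoundedContinuousFunction.evalCLM ℂ s : A →L[ℂ] ℂ) (hD k)
    have h2 : HasFDerivAt (fun z => (W k s.length : ℂ) * (kL 0 (f z) : A) s)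
        ((W k s.length : ℂ) • (BoundedContinuousFunction.evalCLM ℂ s : A →L[ℂ] ℂ).comp (D 0)) x :=
      (fderiv_clm (BoundedContinuousFunction.evalCLM ℂ s : A →L[ℂ] ℂ) (hD 0)).const_smul (W k s.length : ℂ)
    have h3 : (fun z => (kL k (f z) : A) s) = fun z => (W k s.length : ℂ) * (kL 0 (f z) : A) s := by
      funext z
      rw [kL_apply, kL_zero]
    rw [h3] at h1
    have h4 := h1.unique h2
    exact congrArg (fun T => T v) h4
  refine ⟨(ContinuousLinearMap.pi D).codRestrict G hmem, ?_⟩
  rw [hasFDerivAt_iff_isLittleOTVS]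
  have hind : Topology.IsInducing (G.subtypeL : G →L[ℂ] (ℕ → A)) := Topology.IsInducing.subtypeVal
  refine ((G.subtypeL).isThetaTVS_comp (𝕜 := ℂ) (l := 𝓝 x)
    (f := fun x' => f x' - f x - (ContinuousLinearMap.pi D).codRestrict G hmem (x' - x))
    hind).2.trans_isLittleOTVS ?_
  rw [isLittleOTVS_pi]
  intro k
  have := hD k
  rw [hasFDerivAt_iff_isLittleOTVS] at this
  exact this

/-- elements of `G` from families of coordinates -/
noncomputable def mkG (y : Idx → ℂ) (hy : Continuous y)
    (h : ∀ k, ∃ C : ℝ, ∀ s, W k s.length * ‖y s‖ ≤ C) : G :=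
  ⟨fun k => BoundedContinuousFunction.ofNormedAddCommGroup (fun s => W k s.length * y s)
    ((cont_length fun n => (W k n : ℂ)).mul hy) (h k).choose (by
    intro s
    rw [norm_mul, Complex.norm_real, Real.norm_eq_abs, abs_of_pos (W_pos _ _)]
    exact (h k).choose_spec s), by
    intro k s
    show (W k s.length : ℂ) * y s = W k s.length * ((W 0 s.length : ℂ) * y s)
    rw [W_zero, Complex.ofReal_one, one_mul]⟩

theorem co_mkG (y : Idx → ℂ) (hy : Continuous y)
    (h : ∀ k, ∃ C : ℝ, ∀ s, W k s.length * ‖y s‖ ≤ C) (s : Idx) :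
    co (mkG y hy h) s = y s := by
  show (W 0 s.length : ℂ) * y s = y s
  rw [W_zero, Complex.ofReal_one, one_mul]

theorem bd (x : G) (k : ℕ) (s : Idx) : W k s.length * ‖co x s‖ ≤ ‖kL k x‖ := by
  have h := (kL k x).norm_coe_le_norm s
  rwa [kL_apply, norm_mul, Complex.norm_real, Real.norm_eq_abs, abs_of_pos (W_pos _ _)] at h

theorem norm_kL_le (x : G) (k : ℕ) {C : ℝ} (hC : 0 ≤ C)
    (h : ∀ s, W k s.length * ‖co x s‖ ≤ C) : ‖kL k x‖ ≤ C := by
  rw [BoundedContinuousFunction.norm_le hC]
  intro s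
  rw [kL_apply, norm_mul, Complex.norm_real, Real.norm_eq_abs, abs_of_pos (W_pos _ _)]
  exact h s

theorem cont_of_bound (f : G →ₗ[ℂ] G)
    (h : ∀ k, ∃ k' : ℕ, ∃ C : ℝ, ∀ x, ‖kL k (f x)‖ ≤ C * ‖kL k' x‖) : Continuous f := by
  rw [Topology.IsInducing.subtypeVal.continuous_iff, continuous_pi_iff]
  intro k
  obtain ⟨k', C, hC⟩ := h k
  have h1 : Continuous ((kL k).toLinearMap.comp f).toAddMonoidHom := by
    apply continuous_of_continuousAt_zero
    show Tendsto (fun x => kL k (f x)) (𝓝 0) (𝓝 (kL k (f 0)))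
    rw [map_zero, map_zero]
    apply squeeze_zero_norm hC
    have h2 : Tendsto (fun x : G => C * ‖kL k' x‖) (𝓝 0) (𝓝 (C * ‖kL k' 0‖)) :=
      (((kL k').continuous.norm).const_mul C).tendsto 0
    simpa using h2
  exact h1

/-- the shift along the tree -/
def tl (y : Idx → ℂ) : Idx → ℂ
  | [] => 0
  | _ :: s => y s

theorem cont_tl {y : Idx → ℂ} (hy : Continuous y) : Continuous (tl y) := by
  rw [continuous_iff_continuousAt]
  intro s
  cases s with
  | nil =>
    unfold ContinuousAt
    rw [nhds_nil]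
    exact tendsto_pure_nhds _ _
  | cons p s =>
    unfold ContinuousAt
    rw [List.tendsto_cons_iff]
    have h := (hy.comp (continuous_snd (X := Pt) (Y := List Pt))).tendsto (p, s)
    rw [nhds_prod_eq] at h
    exact h

theorem cont_co (x : G) : Continuous (co x) := ((x : ℕ → A) 0).continuous

theorem tl_bound (x : G) (k : ℕ) (s : Idx) :
    W k s.length * ‖tl (co x) s‖ ≤ ‖kL (k + 1) x‖ := by
  cases s with
  | nil => simp [tl]
  | cons p s =>
    refine le_trans ?_ (bd x (k + 1) s)
    exact mul_le_mul_of_nonneg_right (W_succ k s.length) (norm_nonneg _)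

noncomputable def Sl : G →ₗ[ℂ] G where
  toFun x := mkG (tl (co x)) (cont_tl (cont_co x)) (fun k => ⟨_, tl_bound x k⟩)
  map_add' x y := by
    apply G_ext
    intro s
    show co (mkG _ _ _) s = co (mkG _ _ _) s + co (mkG _ _ _) s
    rw [co_mkG, co_mkG, co_mkG]
    cases s with
    | nil => simp [tl]
    | cons p s => rfl
  map_smul' c x := by
    apply G_ext
    intro s
    show co (mkG _ _ _) s = c * co (mkG _ _ _) s
    rw [co_mkG, co_mkG]
    cases s with
    | nil => simp [tl]
    | cons p s => rfl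

theorem co_Sl (x : G) (s : Idx) : co (Sl x) s = tl (co x) s :=
  co_mkG (tl (co x)) (cont_tl (cont_co x)) (fun k => ⟨_, tl_bound x k⟩) s

noncomputable def S : G →L[ℂ] G where
  toLinearMap := Sl
  cont := cont_of_bound Sl (fun k => ⟨k + 1, 1, fun x => by
    rw [one_mul]
    apply norm_kL_le _ _ (norm_nonneg _)
    intro s
    rw [co_Sl]
    exact tl_bound x k s⟩)

theorem co_S (x : G) (s : Idx) : co (S x) s = tl (co x) s := co_Sl x s

theorem amul_bound (a : A) (x : G) (k : ℕ) (s : Idx) :
    W k s.length * ‖(a s : ℂ) * co x s‖ ≤ ‖a‖ * ‖kL k x‖ := by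
  have h1 := a.norm_coe_le_norm s
  have h2 := bd x k s
  rw [norm_mul]
  calc W k s.length * (‖a s‖ * ‖co x s‖) = ‖a s‖ * (W k s.length * ‖co x s‖) := by ring
    _ ≤ ‖a‖ * ‖kL k x‖ := mul_le_mul h1 h2 (by have := W_pos k s.length; positivity) (norm_nonneg _)

noncomputable def amull (a : A) : G →ₗ[ℂ] G where
  toFun x := mkG (fun s => (a s : ℂ) * co x s) (a.continuous.mul (cont_co x)) (fun k => ⟨_, amul_bound a x k⟩)
  map_add' x y := by
    apply G_ext
    intro s
    show co (mkG _ _ _) s = co (mkG _ _ _) s + co (mkG _ _ _) s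
    rw [co_mkG, co_mkG, co_mkG]
    show (a s : ℂ) * (co x s + co y s) = _
    ring
  map_smul' c x := by
    apply G_ext
    intro s
    show co (mkG _ _ _) s = c * co (mkG _ _ _) s
    rw [co_mkG, co_mkG]
    show (a s : ℂ) * (c * co x s) = _
    ring

theorem co_amull (a : A) (x : G) (s : Idx) : co (amull a x) s = a s * co x s :=
  co_mkG (fun s => (a s : ℂ) * co x s) (a.continuous.mul (cont_co x)) (fun k => ⟨_, amul_bound a x k⟩) s

/-- multiplication by a bounded family -/
noncomputable def amul (a : A) : G →L[ℂ] G where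
  toLinearMap := amull a
  cont := cont_of_bound (amull a) (fun k => ⟨k, ‖a‖, fun x => by
    apply norm_kL_le _ _ (by positivity)
    intro s
    rw [co_amull]
    exact amul_bound a x k s⟩)

theorem co_amul (a : A) (x : G) (s : Idx) : co (amul a x) s = a s * co x s := co_amull a x s

theorem kL_amul (a : A) (x : G) (k : ℕ) : kL k (amul a x) = a * kL k x := by
  ext s
  rw [kL_apply, co_amul, BoundedContinuousFunction.mul_apply, kL_apply]
  ring

theorem diffAt_amul {X : Type*} [NormedAddCommGroup X] [NormedSpace ℂ X] {a : X → A} {f : X → G}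
    {x : X} (ha : DifferentiableAt ℂ a x) (hf : DifferentiableAt ℂ f x) :
    DifferentiableAt ℂ (fun z => amul (a z) (f z)) x := by
  apply diffAt_G
  intro k
  simp only [kL_amul]
  exact ha.mul (diffAt_clm (kL k) hf)

/-! ### the family of operators -/

/-- the two centers, alternating -/
noncomputable def cen (n : ℕ) : ℂ := if n % 2 = 0 then 0 else 1

theorem cen_congr {m n : ℕ} (h : m % 2 = n % 2) : cen m = cen n := by
  unfold cen
  rw [h]

theorem norm_cen_le (n : ℕ) : ‖cen n‖ ≤ 1 := by
  unfold cen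
  split_ifs <;> simp

theorem norm_cen_sub (n : ℕ) : ‖cen n - cen (n + 1)‖ = 1 := by
  unfold cen
  rcases Nat.mod_two_eq_zero_or_one n with h | h
  · have h' : (n + 1) % 2 = 1 := by omega
    simp [h, h']
  · have h' : (n + 1) % 2 = 0 := by omega
    simp [h, h']

/-- the points -/
noncomputable def pt : Idx → ℂ
  | [] => 0
  | p :: s => cen (s.length + 1) + p

theorem pt_mem (s : Idx) : ‖pt s - cen s.length‖ ≤ 1 / 4 := by
  cases s with
  | nil => simp [pt, cen]
  | cons p s =>
    have hp := p.2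
    rw [mem_closedBall, dist_zero_right] at hp
    simpa [pt] using hp

theorem norm_pt_le (s : Idx) : ‖pt s‖ ≤ 2 := by
  have h1 := pt_mem s
  have h2 := norm_cen_le s.length
  have h3 : pt s = (pt s - cen s.length) + cen s.length := by ring
  rw [h3]
  refine (norm_add_le _ _).trans ?_
  linarith

theorem cont_pt : Continuous pt := by
  rw [continuous_iff_continuousAt]
  intro s
  cases s with
  | nil =>
    unfold ContinuousAt
    rw [nhds_nil]
    exact tendsto_pure_nhds _ _
  | cons p s =>
    unfold ContinuousAt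
    rw [List.tendsto_cons_iff]
    have h : Continuous fun q : Pt × List Pt => cen (q.2.length + 1) + (q.1 : ℂ) :=
      ((cont_length fun n => cen (n + 1)).comp continuous_snd).add
        (continuous_subtype_val.comp continuous_fst)
    have h' := h.tendsto (p, s)
    rw [nhds_prod_eq] at h'
    exact h'

noncomputable def Qa : A := BoundedContinuousFunction.ofNormedAddCommGroup pt cont_pt 2 norm_pt_le

theorem Qa_apply (s : Idx) : (Qa : A) s = pt s := rfl

/-- the family of operators -/
noncomputable def u (ζ : ℂ) : G × G →L[ℂ] G :=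
  ContinuousLinearMap.fst ℂ G G - S.comp (ContinuousLinearMap.fst ℂ G G)
    + ζ • ContinuousLinearMap.snd ℂ G G - (amul Qa).comp (ContinuousLinearMap.snd ℂ G G)

theorem u_apply (ζ : ℂ) (h b : G) : u ζ (h, b) = h - S h + ζ • b - amul Qa b := rfl

theorem u_apply' (ζ : ℂ) (x : G × G) :
    u ζ x = ζ • x.2 + (x.1 - S x.1 - amul Qa x.2) := by
  have h1 : u ζ x = x.1 - S x.1 + ζ • x.2 - amul Qa x.2 := rfl
  rw [h1]
  abel

theorem co_u (ζ : ℂ) (h b : G) (s : Idx) :
    co (u ζ (h, b)) s = co h s - tl (co h) s + (ζ - pt s) * co b s := by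
  have h1 : co (u ζ (h, b)) s = co h s - co (S h) s + ζ * co b s - co (amul Qa b) s := rfl
  rw [h1, co_S, co_amul, Qa_apply]
  ring

/-- indicator of the indices with given parity of the length -/
noncomputable def Ea (e : ℕ) : A := BoundedContinuousFunction.ofNormedAddCommGroup
  (fun s => if s.length % 2 = e % 2 then 1 else 0)
  (cont_length fun n => if n % 2 = e % 2 then (1 : ℂ) else 0) 1 (by
    intro s
    split_ifs <;> simp)

theorem Ea_apply (e : ℕ) (s : Idx) :
    (Ea e : A) s = if s.length % 2 = e % 2 then (1 : ℂ) else 0 := rfl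

noncomputable def den (e : ℕ) (ζ : ℂ) : A := Ea e + (1 - Ea e) * (ζ • (1 : A) - Qa)

theorem den_apply (e : ℕ) (ζ : ℂ) (s : Idx) :
    (den e ζ : A) s = if s.length % 2 = e % 2 then (1 : ℂ) else ζ - pt s := by
  have h1 : (den e ζ : A) s = (Ea e : A) s + (1 - (Ea e : A) s) * (ζ * 1 - (Qa : A) s) := rfl
  rw [h1, Ea_apply, Qa_apply]
  split_ifs <;> ring

theorem isUnit_den {e : ℕ} {ζ : ℂ} (h : 1 / 4 < ‖ζ - cen (e + 1)‖) : IsUnit (den e ζ) := by
  set δ : ℝ := ‖ζ - cen (e + 1)‖ - 1 / 4 with hδ
  have hδ0 : 0 < δ := by linarith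
  have hbad : ∀ s : Idx, s.length % 2 ≠ e % 2 → δ ≤ ‖ζ - pt s‖ := by
    intro s hs
    have h1 : cen s.length = cen (e + 1) := cen_congr (by omega)
    have h2 := pt_mem s
    rw [h1] at h2
    have h3 : ζ - cen (e + 1) = (ζ - pt s) + (pt s - cen (e + 1)) := by ring
    have h4 := norm_add_le (ζ - pt s) (pt s - cen (e + 1))
    rw [← h3] at h4
    linarith
  have hcont : Continuous fun s : Idx =>
      if s.length % 2 = e % 2 then (1 : ℂ) else (ζ - pt s)⁻¹ := by
    rw [continuous_iff_continuousAt]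
    intro s
    by_cases hs : s.length % 2 = e % 2
    · have h1 : (fun s : Idx => if s.length % 2 = e % 2 then (1 : ℂ) else (ζ - pt s)⁻¹)
          =ᶠ[𝓝 s] fun _ => 1 := by
        filter_upwards [eventually_length s] with t ht
        rw [ht, if_pos hs]
      exact continuousAt_const.congr h1.symm
    · have h1 : (fun s : Idx => if s.length % 2 = e % 2 then (1 : ℂ) else (ζ - pt s)⁻¹)
          =ᶠ[𝓝 s] fun t => (ζ - pt t)⁻¹ := by
        filter_upwards [eventually_length s] with t ht
        rw [ht, if_neg hs]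
      have h0 : ζ - pt s ≠ 0 := by
        intro h0
        have := hbad s hs
        rw [h0, norm_zero] at this
        linarith
      exact ((continuousAt_const.sub cont_pt.continuousAt).inv₀ h0).congr h1.symm
  let inv : A := BoundedContinuousFunction.ofNormedAddCommGroup
    (fun s => if s.length % 2 = e % 2 then (1 : ℂ) else (ζ - pt s)⁻¹) hcont (max 1 δ⁻¹) (by
      intro s
      split_ifs with hs
      · rw [norm_one]; exact le_max_left _ _
      · rw [norm_inv]
        exact le_trans (inv_anti₀ hδ0 (hbad s hs)) (le_max_right _ _))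
  have hinv : ∀ s, (inv : A) s = if s.length % 2 = e % 2 then (1 : ℂ) else (ζ - pt s)⁻¹ :=
    fun s => rfl
  have hmul : den e ζ * inv = 1 := by
    ext s
    rw [BoundedContinuousFunction.mul_apply, den_apply, hinv]
    show _ = (1 : ℂ)
    split_ifs with hs
    · ring
    · have h0 : ζ - pt s ≠ 0 := by
        intro h0
        have := hbad s hs
        rw [h0, norm_zero] at this
        linarith
      exact mul_inv_cancel₀ h0
  exact IsUnit.of_mul_eq_one _ hmul

theorem local_onto {X : Type*} [NormedAddCommGroup X] [NormedSpace ℂ X] (e : ℕ) {W' : Set X}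
    {ζ : X → ℂ} (hζ : ∀ z ∈ W', DifferentiableAt ℂ ζ z) {g : X → G} (hg : ∀ z ∈ W', DifferentiableAt ℂ g z)
    (hW : ∀ z ∈ W', 1 / 4 < ‖ζ z - cen (e + 1)‖) :
    ∃ f : X → G × G, (∀ z ∈ W', DifferentiableAt ℂ f z) ∧ ∀ z ∈ W', u (ζ z) (f z) = g z := by
  refine ⟨fun z => (amul (Ea e) (g z),
    amul ((1 - Ea e) * Ring.inverse (den e (ζ z))) ((ContinuousLinearMap.id ℂ G
      + S.comp (amul (Ea e))) (g z))), ?_, ?_⟩
  · intro z hz
    have hden : DifferentiableAt ℂ (fun z => den e (ζ z)) z := by
      have := hζ z hz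
      unfold den
      fun_prop
    apply diffAt_prod (diffAt_clm _ (hg z hz))
    apply diffAt_amul
    · apply DifferentiableAt.const_mul
      have h1 : DifferentiableAt ℂ (Ring.inverse : A → A) (den e (ζ z)) :=
        differentiableAt_inverse (isUnit_den (hW z hz))
      exact h1.comp z hden
    · exact diffAt_clm _ (hg z hz)
  · intro z hz
    have hu := isUnit_den (hW z hz)
    have hinv : ∀ s : Idx, (den e (ζ z) : A) s * (Ring.inverse (den e (ζ z)) : A) s = 1 := by
      intro s
      have h1 := Ring.mul_inverse_cancel _ hu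
      have h2 := congrArg (fun a : A => (a : Idx → ℂ) s) h1
      exact h2
    apply G_ext
    intro s
    rw [co_u]
    have hb : co (amul ((1 - Ea e) * Ring.inverse (den e (ζ z))) ((ContinuousLinearMap.id ℂ G
        + S.comp (amul (Ea e))) (g z))) s = ((1 - (Ea e : A) s) * (Ring.inverse (den e (ζ z)) : A) s)
        * (co (g z) s + tl (co (amul (Ea e) (g z))) s) := by
      rw [co_amul]
      have h3 : co ((ContinuousLinearMap.id ℂ G + S.comp (amul (Ea e))) (g z)) s
        = co (g z) s + co (S (amul (Ea e) (g z))) s := rfl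
      rw [h3, co_S]
      rfl
    rw [hb, co_amul, Ea_apply]
    have hi := hinv s
    rw [den_apply] at hi
    split_ifs with hs
    · have ht : tl (co (amul (Ea e) (g z))) s = 0 := by
        cases s with
        | nil => rfl
        | cons p s =>
          show co (amul (Ea e) (g z)) s = 0
          rw [co_amul, Ea_apply, if_neg, zero_mul]
          rw [List.length_cons] at hs
          omega
      rw [ht]
      ring
    · rw [if_neg hs] at hi
      have : (0 : ℂ) * co (g z) s - tl (co (amul (Ea e) (g z))) s + (ζ z - pt s) *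
          ((1 - 0) * (Ring.inverse (den e (ζ z)) : A) s *
          (co (g z) s + tl (co (amul (Ea e) (g z))) s))
          = - tl (co (amul (Ea e) (g z))) s + ((ζ z - pt s) * (Ring.inverse (den e (ζ z)) : A) s)
            * (co (g z) s + tl (co (amul (Ea e) (g z))) s) := by ring
      rw [this, hi]
      ring

theorem term_le (m N : ℕ) (hN : 3 ≤ N) :
    min (((5 : ℝ) / 4) ^ m / 4 ^ m) ((5 / 4) ^ m * 4 ^ m / 2 ^ (8 * N)) ≤ 1 / 2 ^ N / 2 / 2 ^ m := by
  rcases lt_or_ge m (2 * N) with h | h
  · refine (min_le_right _ _).trans ?_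
    have e1 : ((5 : ℝ) / 4) ^ m * 4 ^ m = 5 ^ m := by
      rw [← mul_pow]; norm_num
    rw [e1, div_div, div_div, div_le_div_iff₀ (by positivity) (by positivity), one_mul]
    have e2 : (5 : ℝ) ^ m * (2 ^ N * (2 * 2 ^ m)) = 2 ^ N * (2 * 10 ^ m) := by
      have : (10 : ℝ) ^ m = 5 ^ m * 2 ^ m := by rw [← mul_pow]; norm_num
      rw [this]; ring
    have e3 : (2 : ℝ) ^ (8 * N) = 2 ^ N * 128 ^ N := by
      rw [pow_mul, ← mul_pow]; norm_num
    rw [e2, e3]
    apply mul_le_mul_of_nonneg_left _ (by positivity)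
    have h1 : (10 : ℝ) ^ (m + 1) ≤ 10 ^ (2 * N) := pow_le_pow_right₀ (by norm_num) h
    rw [pow_succ, pow_mul] at h1
    have h2 : ((10 : ℝ) ^ 2) ^ N ≤ 128 ^ N := pow_le_pow_left₀ (by norm_num) (by norm_num) N
    have h3 : (0 : ℝ) ≤ 10 ^ m := by positivity
    linarith
  · refine (min_le_left _ _).trans ?_
    have e1 : ((5 : ℝ) / 4) ^ m / 4 ^ m = (5 / 8) ^ m / 2 ^ m := by
      rw [← div_pow, ← div_pow]; norm_num
    rw [e1]
    apply div_le_div_of_nonneg_right _ (by positivity)
    have h1 : ((5 : ℝ) / 8) ^ m ≤ (5 / 8) ^ (2 * N) :=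
      pow_le_pow_of_le_one (by norm_num) (by norm_num) h
    refine h1.trans ?_
    rw [pow_mul, div_div, le_div_iff₀ (by positivity)]
    obtain ⟨M, rfl⟩ := Nat.exists_eq_add_of_le hN
    have e2 : (((5 : ℝ) / 8) ^ 2) ^ (3 + M) * (2 ^ (3 + M) * 2)
        = (25 / 32) ^ M * ((25 / 32) ^ 3 * 2) := by
      rw [← mul_assoc, ← mul_pow, pow_add]
      norm_num
      ring
    rw [e2]
    have h3 : ((25 : ℝ) / 32) ^ M ≤ 1 := pow_le_one₀ (by norm_num) (by norm_num)
    have h4 : ((25 : ℝ) / 32) ^ 3 * 2 ≤ 1 := by norm_num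
    have h5 : (0 : ℝ) ≤ (25 / 32) ^ M := by positivity
    calc ((25 : ℝ) / 32) ^ M * ((25 / 32) ^ 3 * 2) ≤ 1 * 1 := mul_le_mul h3 h4 (by norm_num) zero_le_one
      _ = 1 := one_mul 1

theorem transfer {f : ℂ → ℂ} (hf : DifferentiableOn ℂ f (ball 0 6)) {B : ℝ} (hB : 0 ≤ B)
    (hb : ∀ z ∈ closedBall (0 : ℂ) 5, ‖f z‖ ≤ B) (n : ℕ) {N : ℕ} (hN : 3 ≤ N)
    (hs : ∀ z ∈ closedBall (cen (n + 1)) (1 / 4), ‖f z‖ ≤ B / 2 ^ (8 * N)) :
    ∀ z ∈ closedBall (cen n) (1 / 4), ‖f z‖ ≤ B / 2 ^ N := by
  intro z hz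
  set c := cen (n + 1) with hc
  have hc1 : ‖c‖ ≤ 1 := norm_cen_le _
  have hsub : closedBall c 4 ⊆ closedBall 0 5 := by
    intro w hw
    rw [mem_closedBall, dist_eq_norm] at hw
    rw [mem_closedBall, dist_zero_right]
    have : w = (w - c) + c := by ring
    rw [this]
    refine (norm_add_le _ _).trans ?_
    linarith
  have hsub2 : closedBall (0 : ℂ) 5 ⊆ ball 0 6 := closedBall_subset_ball (by norm_num)
  have hzc : ‖z - c‖ ≤ 5 / 4 := by
    rw [mem_closedBall, dist_eq_norm] at hz
    have h1 := norm_cen_sub n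
    have : z - c = (z - cen n) + (cen n - c) := by ring
    rw [this]
    refine (norm_add_le _ _).trans ?_
    linarith
  have hd : ∀ R : ℝ, 0 < R → R ≤ 4 → DiffContOnCl ℂ f (ball c R) := by
    intro R hR hR4
    apply DifferentiableOn.diffContOnCl
    rw [closure_ball c hR.ne']
    exact hf.mono ((closedBall_subset_closedBall hR4).trans (hsub.trans hsub2))
  have hsum := Complex.hasSum_taylorSeries_on_ball (f := f) (c := c) (r := 4)
    (hf.mono (ball_subset_closedBall.trans (hsub.trans hsub2))) (z := z) (by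
      rw [mem_ball, dist_eq_norm]
      refine lt_of_le_of_lt hzc ?_
      norm_num)
  have hc4 : ∀ m, ‖iteratedDeriv m f c‖ ≤ m.factorial * B / 4 ^ m := fun m =>
    Complex.norm_iteratedDeriv_le_of_forall_mem_sphere_norm_le m (by norm_num)
      (hd 4 (by norm_num) le_rfl) (fun w hw => hb w (hsub (sphere_subset_closedBall hw)))
  have hc14 : ∀ m, ‖iteratedDeriv m f c‖ ≤ m.factorial * (B / 2 ^ (8 * N)) / (1 / 4) ^ m := fun m =>
    Complex.norm_iteratedDeriv_le_of_forall_mem_sphere_norm_le m (by norm_num)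
      (hd (1 / 4) (by norm_num) (by norm_num)) (fun w hw => hs w (sphere_subset_closedBall hw))
  have hterm : ∀ m : ℕ, ‖((m.factorial : ℂ))⁻¹ • (z - c) ^ m • iteratedDeriv m f c‖
      ≤ B / 2 ^ N / 2 / 2 ^ m := by
    intro m
    rw [norm_smul, norm_smul, norm_inv, norm_pow, Complex.norm_natCast]
    have hfac : (0 : ℝ) < m.factorial := by exact_mod_cast m.factorial_pos
    have hp : ‖z - c‖ ^ m ≤ (5 / 4) ^ m := pow_le_pow_left₀ (norm_nonneg _) hzc m
    have h1 : (m.factorial : ℝ)⁻¹ * (‖z - c‖ ^ m * ‖iteratedDeriv m f c‖)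
        ≤ B * ((5 / 4) ^ m / 4 ^ m) := by
      calc (m.factorial : ℝ)⁻¹ * (‖z - c‖ ^ m * ‖iteratedDeriv m f c‖)
          ≤ (m.factorial : ℝ)⁻¹ * ((5 / 4) ^ m * (m.factorial * B / 4 ^ m)) := by
            apply mul_le_mul_of_nonneg_left _ (by positivity)
            exact mul_le_mul hp (hc4 m) (norm_nonneg _) (by positivity)
        _ = B * ((5 / 4) ^ m / 4 ^ m) := by
            field_simp
    have h2 : (m.factorial : ℝ)⁻¹ * (‖z - c‖ ^ m * ‖iteratedDeriv m f c‖)
        ≤ B * ((5 / 4) ^ m * 4 ^ m / 2 ^ (8 * N)) := by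
      calc (m.factorial : ℝ)⁻¹ * (‖z - c‖ ^ m * ‖iteratedDeriv m f c‖)
          ≤ (m.factorial : ℝ)⁻¹ * ((5 / 4) ^ m * (m.factorial * (B / 2 ^ (8 * N)) / (1 / 4) ^ m)) := by
            apply mul_le_mul_of_nonneg_left _ (by positivity)
            exact mul_le_mul hp (hc14 m) (norm_nonneg _) (by positivity)
        _ = B * ((5 / 4) ^ m * 4 ^ m / 2 ^ (8 * N)) := by
            have : ((1 : ℝ) / 4) ^ m = 1 / 4 ^ m := by rw [div_pow, one_pow]
            rw [this]
            field_simp
    have h3 := le_min h1 h2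
    rw [← mul_min_of_nonneg _ _ hB] at h3
    refine h3.trans ?_
    calc B * min ((5 / 4) ^ m / 4 ^ m) ((5 / 4) ^ m * 4 ^ m / 2 ^ (8 * N))
        ≤ B * (1 / 2 ^ N / 2 / 2 ^ m) := mul_le_mul_of_nonneg_left (term_le m N hN) hB
      _ = B / 2 ^ N / 2 / 2 ^ m := by ring
  rw [← hsum.tsum_eq]
  exact tsum_of_norm_bounded (hasSum_geometric_two' (B / 2 ^ N)) hterm

theorem rigid {φ : Idx → ℂ → ℂ} (hd : ∀ s, DifferentiableOn ℂ (φ s) (ball 0 6)) {C : ℝ}
    (hb : ∀ s : Idx, ∀ z ∈ closedBall (0 : ℂ) 5, 2 ^ (16 ^ s.length) * ‖φ s z‖ ≤ C)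
    (hc : ∀ (p : Pt) (s : Idx),
      φ (p :: s) (cen (s.length + 1) + p) = φ s (cen (s.length + 1) + p)) :
    φ [] 0 = 0 := by
  have hC : 0 ≤ C := le_trans (by positivity) (hb [] 0 (mem_closedBall_self (by norm_num)))
  have hb1 : ∀ s : Idx, ∀ z ∈ closedBall (0 : ℂ) 5, ‖φ s z‖ ≤ C := by
    intro s z hz
    refine le_trans ?_ (hb s z hz)
    have : (1 : ℝ) ≤ 2 ^ (16 ^ s.length) := one_le_pow₀ one_le_two
    nlinarith [norm_nonneg (φ s z)]
  have hsub : ∀ n, closedBall (cen n) (1 / 4) ⊆ closedBall (0 : ℂ) 5 := by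
    intro n w hw
    rw [mem_closedBall, dist_eq_norm] at hw
    rw [mem_closedBall, dist_zero_right]
    have h1 := norm_cen_le n
    have : w = (w - cen n) + cen n := by ring
    rw [this]
    refine (norm_add_le _ _).trans ?_
    linarith
  -- iteration
  have key : ∀ m N n : ℕ, 3 ≤ N →
      (∀ t : Idx, t.length = n + m → ∀ z ∈ closedBall (cen (n + m)) (1 / 4),
        ‖φ t z‖ ≤ C / 2 ^ (8 ^ m * N)) →
      ∀ s : Idx, s.length = n → ∀ z ∈ closedBall (cen n) (1 / 4), ‖φ s z‖ ≤ C / 2 ^ N := by
    intro m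
    induction m with
    | zero =>
      intro N n _ h s hs
      simpa using h s (by simpa using hs)
    | succ m ih =>
      intro N n hN h s hs
      have h1 := ih (8 * N) (n + 1) (by omega) (by
        intro t ht z hz
        have e1 : n + 1 + m = n + (m + 1) := by omega
        rw [e1] at ht hz
        have e2 : 8 ^ m * (8 * N) = 8 ^ (m + 1) * N := by ring
        rw [e2]
        exact h t ht z hz)
      apply transfer (hd s) hC (hb1 s) n hN
      intro z hz
      rw [mem_closedBall, dist_eq_norm] at hz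
      have hp : z - cen (n + 1) ∈ closedBall (0 : ℂ) (1 / 4) := by
        rw [mem_closedBall, dist_zero_right]; exact hz
      have h2 := hc ⟨z - cen (n + 1), hp⟩ s
      have e3 : cen (s.length + 1) + ((⟨z - cen (n + 1), hp⟩ : Pt) : ℂ) = z := by
        rw [hs]
        show cen (n + 1) + (z - cen (n + 1)) = z
        ring
      rw [e3] at h2
      rw [← h2]
      apply h1 _ (by rw [List.length_cons, hs])
      rw [mem_closedBall, dist_eq_norm]
      exact hz
  have hall : ∀ N : ℕ, 3 ≤ N → ‖φ [] 0‖ ≤ C / 2 ^ N := by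
    intro N hN
    apply key N N 0 hN _ [] rfl
    · rw [mem_closedBall, dist_eq_norm]
      simp [cen]
    · intro t ht z hz
      have h1 := hb t z (hsub _ hz)
      rw [ht, zero_add] at h1
      have h2 : 8 ^ N * N ≤ 16 ^ N := by
        have : (16 : ℕ) ^ N = 8 ^ N * 2 ^ N := by rw [← mul_pow]; norm_num
        rw [this]
        exact Nat.mul_le_mul_left _ (Nat.lt_two_pow_self).le
      have h3 : (2 : ℝ) ^ (8 ^ N * N) ≤ 2 ^ (16 ^ N) := pow_le_pow_right₀ one_le_two h2
      rw [le_div_iff₀ (by positivity), mul_comm]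
      refine le_trans ?_ h1
      exact mul_le_mul_of_nonneg_right h3 (norm_nonneg _)
  have hlim : Tendsto (fun N : ℕ => C / 2 ^ N) atTop (𝓝 0) := by
    have h1 : Tendsto (fun N : ℕ => C * (1 / 2 : ℝ) ^ N) atTop (𝓝 (C * 0)) :=
      (tendsto_pow_atTop_nhds_zero_of_lt_one (by norm_num) (by norm_num)).const_mul C
    rw [mul_zero] at h1
    refine h1.congr (fun N => ?_)
    rw [one_div, inv_pow, div_eq_mul_inv]
  have h0 : ‖φ [] 0‖ ≤ 0 :=
    ge_of_tendsto hlim (eventually_atTop.2 ⟨3, fun N hN => hall N hN⟩)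
  exact norm_eq_zero.1 (le_antisymm h0 (norm_nonneg _))

/-! ### the final result -/

theorem cont_e0 : Continuous fun s : Idx => if s = [] then (1 : ℂ) else 0 := by
  have h : (fun s : Idx => if s = [] then (1 : ℂ) else 0)
      = fun s => if s.length = 0 then (1 : ℂ) else 0 := by
    funext s
    simp only [List.length_eq_zero_iff]
  rw [h]
  exact cont_length fun n => if n = 0 then (1 : ℂ) else 0

/-- the target without global preimage -/
noncomputable def e0 : G := mkG (fun s => if s = [] then 1 else 0) cont_e0 (fun k => ⟨W k 0, fun s => by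
  by_cases hs : s = []
  · rw [if_pos hs, hs, norm_one, mul_one]
    exact le_rfl
  · rw [if_neg hs, norm_zero, mul_zero]
    exact (W_pos _ _).le⟩)

theorem co_e0 (s : Idx) : co e0 s = if s = [] then 1 else 0 := co_mkG _ _ _ s

theorem continuous_u : Continuous fun p : (G × G) × ℂ => u p.2 p.1 := by
  have : (fun p : (G × G) × ℂ => u p.2 p.1) =
      fun p => p.1.1 - S p.1.1 + p.2 • p.1.2 - amul Qa p.1.2 := by
    funext p
    exact u_apply p.2 p.1.1 p.1.2
  rw [this]
  have h1 : Continuous fun p : (G × G) × ℂ => p.1.1 := continuous_fst.fst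
  have h2 : Continuous fun p : (G × G) × ℂ => p.1.2 := continuous_fst.snd
  exact ((h1.sub (S.continuous.comp h1)).add (continuous_snd.smul h2)).sub
    ((amul Qa).continuous.comp h2)

theorem equicont {X : Type*} [TopologicalSpace X] (V : Set X) (ζ : X → ℂ)
    (hV : ∀ z ∈ V, ζ z ∈ closedBall (0 : ℂ) 6) :
    Equicontinuous (fun z : V => (u (ζ z) : G × G → G)) := by
  apply equicontinuous_of_equicontinuousAt_zero (F := fun z : V => u (ζ z))
  intro N hN
  rw [uniformity_eq_comap_nhds_zero] at hN
  obtain ⟨M, hM, hMN⟩ := hN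
  have h1 : ∀ᶠ x in 𝓝 (0 : G × G), ∀ c ∈ closedBall (0 : ℂ) 6, u c x ∈ M := by
    apply (isCompact_closedBall (0 : ℂ) 6).eventually_forall_of_forall_eventually
    intro c _
    have h2 : Tendsto (fun p : (G × G) × ℂ => u p.2 p.1) (𝓝 (0, c)) (𝓝 0) := by
      have := continuous_u.tendsto ((0 : G × G), c)
      simpa using this
    exact h2 hM
  filter_upwards [h1] with x hx z
  apply hMN
  show u (ζ z) x - u (ζ z) 0 ∈ M
  rw [map_zero, sub_zero]
  exact hx _ (hV z z.2)

end Pool.Agent.Y283.GL
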